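import Mathlib

/-!
# MP_301b8f_al: rigid k-subsets give structurally sharply k-transitive actions

Let `k ≥ 1` and let `M` be a Fraïssé structure all of whose `k`-element substructures are rigid.
We construct an action of the free group on countably many generators on `M` by automorphisms
which is structurally sharply `k`-transitive.  The generators are approximated by finite partial
isomorphisms, and the approximations carry a potential: a function `φ` from `k`-tuples to the free
group with `φ b = x_n * φ a` whenever the `n`-th partial map sends `a` to `b`.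
-/

namespace Pool.Agent.Results.MP_301b8f_al.RigidSubsets

open FirstOrder FirstOrder.Language FirstOrder.Language.Structure Filter

universe u v w z

/-! ### Definitions -/

/-- A class of structures has the strong amalgamation property. -/
def StrongAmalgamation {L : FirstOrder.Language.{u, v}}
    (K : Set (CategoryTheory.Bundled.{w} L.Structure)) : Prop :=
  ∀ (A B C : CategoryTheory.Bundled.{w} L.Structure) (f : A ↪[L] B) (g : A ↪[L] C),
    A ∈ K → B ∈ K → C ∈ K →
      ∃ (D : CategoryTheory.Bundled.{w} L.Structure) (h : B ↪[L] D) (k : C ↪[L] D), D ∈ K ∧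
        (∀ a, h (f a) = k (g a)) ∧ ∀ b c, h b = k c → ∃ a, f a = b ∧ g a = c

/-- Fraïssé structures: countably infinite, ultrahomogeneous, and the class of finite substructures
has strong amalgamation. -/
structure FraisseStructure (L : FirstOrder.Language.{u, v}) (M : Type w) [L.Structure M] : Prop where
  relational : L.IsRelational
  countable : Countable M
  infinite : Infinite M
  homogeneous : L.IsUltrahomogeneous M
  amalgamation : StrongAmalgamation (L.age M)

/-- Every substructure with exactly `k` elements has trivial automorphism group. -/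
def HasRigidSubsets (L : FirstOrder.Language.{u, v}) (M : Type w) [L.Structure M] (k : ℕ) : Prop :=
  ∀ S : L.Substructure M, Finite S → Nat.card S = k → ∀ e : S ≃[L] S, ∀ x, e x = x

/-- The group `G` acts on `M` by automorphisms of the relational structure `M`. -/
def ActsByAutomorphisms (L : FirstOrder.Language.{u, v}) (G : Type z) (M : Type w) [L.Structure M]
    [Group G] [MulAction G M] : Prop :=
  ∀ (g : G) (n : ℕ) (r : L.Relations n) (x : Fin n → M), RelMap r (fun i => g • x i) ↔ RelMap r x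

/-- Two tuples have the same atomic type: the coordinatewise map between them respects all
relations. -/
def SameType (L : FirstOrder.Language.{u, v}) {M : Type w} [L.Structure M] {k : ℕ}
    (a b : Fin k → M) : Prop :=
  ∀ (n : ℕ) (r : L.Relations n) (v : Fin n → Fin k),
    RelMap r (fun i => a (v i)) ↔ RelMap r (fun i => b (v i))

/-- The action of `G` on `M` is structurally sharply `k`-transitive. -/
def SharplyTransitive (L : FirstOrder.Language.{u, v}) (G : Type z) (M : Type w) [L.Structure M]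
    [Group G] [MulAction G M] (k : ℕ) : Prop :=
  ∀ a b : Fin k → M, Function.Injective a → Function.Injective b → SameType L a b →
    ∃! g : G, ∀ i, g • a i = b i

/-! ### Partial isomorphisms -/

section Main

variable {L : FirstOrder.Language.{u, v}} {M : Type w} [L.Structure M]

variable (L) in
/-- A set of pairs is a partial isomorphism. -/
structure PI (P : Set (M × M)) : Prop where
  fn : ∀ p ∈ P, ∀ q ∈ P, p.1 = q.1 ↔ p.2 = q.2
  rel : ∀ (n : ℕ) (r : L.Relations n) (z : Fin n → M × M), (∀ i, z i ∈ P) →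
    (RelMap r (fun i => (z i).1) ↔ RelMap r (fun i => (z i).2))

theorem PI.mono {P Q : Set (M × M)} (h : PI L Q) (hPQ : P ⊆ Q) : PI L P where
  fn := fun p hp q hq => h.fn p (hPQ hp) q (hPQ hq)
  rel := fun n r z hz => h.rel n r z fun i => hPQ (hz i)

theorem PI.swap {P : Set (M × M)} (h : PI L P) : PI L {p | (p.2, p.1) ∈ P} where
  fn := fun _ hp _ hq => (h.fn _ hp _ hq).symm
  rel := fun n r z hz => (h.rel n r (fun i => ((z i).2, (z i).1)) hz).symm

/-- The graph of an automorphism. -/
theorem PI.graph (γ : M ≃[L] M) : PI L {p | γ p.1 = p.2} where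
  fn := by
    rintro ⟨x, y⟩ h ⟨x', y'⟩ h'
    change γ x = y at h
    change γ x' = y' at h'
    change x = x' ↔ y = y'
    rw [← h, ← h', γ.injective.eq_iff]
  rel := by
    intro n r z hz
    have h1 : (fun i => (z i).2) = γ ∘ fun i => (z i).1 := funext fun i => (hz i).symm
    rw [h1, γ.map_rel]

/-- Substructures of relational structures. -/
def sub (hL : L.IsRelational) (S : Set M) : L.Substructure M where
  carrier := S
  fun_mem := fun {n} f => ((hL n).false f).elim

theorem fg_sub (hL : L.IsRelational) {S : Set M} (hS : S.Finite) : (sub hL S).FG := by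
  have := hL
  have : Finite (sub hL S) := hS
  exact Substructure.FG.of_finite

/-- A partial isomorphism with domain `S` extends to an automorphism. -/
theorem extend_fun (hL : L.IsRelational) (hM : L.IsUltrahomogeneous M) {S : Set M} (hS : S.Finite)
    (f : M → M) (hf : Set.InjOn f S)
    (hR : ∀ (n : ℕ) (r : L.Relations n) (x : Fin n → M), (∀ i, x i ∈ S) →
      (RelMap r (fun i => f (x i)) ↔ RelMap r x)) :
    ∃ γ : M ≃[L] M, ∀ x ∈ S, γ x = f x := by
  let e : (sub hL S) ↪[L] M :=
    { toFun := fun x => f x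
      inj' := fun x y h => Subtype.ext (hf x.2 y.2 h)
      map_fun' := fun {n} g => ((hL n).false g).elim
      map_rel' := fun {n} r x => hR n r (fun i => (x i : M)) fun i => (x i).2 }
  obtain ⟨γ, hγ⟩ := hM (sub hL S) (fg_sub hL hS) e
  refine ⟨γ, fun x hx => ?_⟩
  have h1 := DFunLike.congr_fun hγ (⟨x, hx⟩ : sub hL S)
  exact h1.symm

theorem PI.extend (hL : L.IsRelational) (hM : L.IsUltrahomogeneous M) {P : Set (M × M)}
    (hP : P.Finite) (h : PI L P) : ∃ γ : M ≃[L] M, ∀ p ∈ P, γ p.1 = p.2 := by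
  classical
  let f : M → M := fun x => if hx : ∃ y, (x, y) ∈ P then hx.choose else x
  have hf : ∀ p ∈ P, f p.1 = p.2 := by
    rintro ⟨x, y⟩ hp
    have hx : ∃ y, (x, y) ∈ P := ⟨y, hp⟩
    simp only [f]
    rw [dif_pos hx]
    exact (h.fn _ hx.choose_spec _ hp).1 rfl
  obtain ⟨γ, hγ⟩ := extend_fun hL hM (S := Prod.fst '' P) (hP.image _) f
    (by
      rintro _ ⟨p, hp, rfl⟩ _ ⟨q, hq, rfl⟩ hpq
      rw [hf p hp, hf q hq] at hpq
      exact (h.fn p hp q hq).2 hpq)
    (by
      intro n r x hx
      choose z hz hzx using hx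
      have h1 : x = fun i => (z i).1 := funext fun i => (hzx i).symm
      have h2 : (fun i => f (x i)) = fun i => (z i).2 := funext fun i => by
        rw [← hzx i, hf _ (hz i)]
      rw [h2, h1]
      exact (h.rel n r z hz).symm)
  refine ⟨γ, fun p hp => ?_⟩
  rw [hγ p.1 ⟨p, hp, rfl⟩, hf p hp]

/-- Strong amalgamation: types are not algebraic. -/
theorem avoid (hM : FraisseStructure L M) {A F : Set M} (hA : A.Finite) (hF : F.Finite) {y : M}
    (hy : y ∉ A) : ∃ δ : M ≃[L] M, (∀ x ∈ A, δ x = x) ∧ δ y ∉ F := by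
  have hL := hM.relational
  let A' := sub hL A
  let B' := sub hL (insert y A)
  let C' := sub hL (A ∪ F)
  have hAB : A' ≤ B' := fun x hx => Or.inr hx
  have hAC : A' ≤ C' := fun x hx => Or.inl hx
  have hage : ∀ (S : Set M) (_ : S.Finite),
      (⟨sub hL S, inferInstance⟩ : CategoryTheory.Bundled.{w} L.Structure) ∈ L.age M :=
    fun S hS => ⟨(Substructure.fg_iff_structure_fg _).1 (fg_sub hL hS), ⟨(sub hL S).subtype⟩⟩
  obtain ⟨D, h, k, ⟨_, ⟨e⟩⟩, h1, h2⟩ := hM.amalgamation ⟨A', inferInstance⟩ ⟨B', inferInstance⟩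
    ⟨C', inferInstance⟩ (Substructure.inclusion hAB) (Substructure.inclusion hAC)
    (hage A hA) (hage _ (hA.insert y)) (hage _ (hA.union hF))
  obtain ⟨β, hβ⟩ := hM.homogeneous B' (fg_sub hL (hA.insert y)) (e.comp h)
  obtain ⟨γ, hγ⟩ := hM.homogeneous C' (fg_sub hL (hA.union hF)) (e.comp k)
  have hβ' : ∀ x : B', e (h x) = β x := fun x => DFunLike.congr_fun hβ x
  have hγ' : ∀ x : C', e (k x) = γ x := fun x => DFunLike.congr_fun hγ x
  refine ⟨γ.symm.comp β, ?_, ?_⟩
  · intro x hx
    have h3 := h1 ⟨x, hx⟩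
    have h4 : β x = γ x := by
      have h5 := hβ' (Substructure.inclusion hAB ⟨x, hx⟩)
      have h6 := hγ' (Substructure.inclusion hAC ⟨x, hx⟩)
      exact h5.symm.trans ((congrArg e h3).trans h6)
    rw [Language.Equiv.comp_apply, h4]
    exact γ.symm_apply_apply x
  · rw [Language.Equiv.comp_apply]
    intro hyF
    have h3 : γ (γ.symm (β y)) = β y := γ.apply_symm_apply _
    have h4 := hγ' ⟨γ.symm (β y), Or.inr hyF⟩
    have h5 := hβ' ⟨y, Or.inl rfl⟩
    have h6 : h ⟨y, Or.inl rfl⟩ = k ⟨γ.symm (β y), Or.inr hyF⟩ := by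
      apply e.injective
      exact h5.trans (h3.symm.trans h4.symm)
    obtain ⟨a, ha, _⟩ := h2 _ _ h6
    have h7 : (a : M) = y := congrArg Subtype.val ha
    exact hy (h7 ▸ a.2)

/-- Partial isomorphisms can be extended with fresh values. -/
theorem PI.insert_fresh (hM : FraisseStructure L M) {P : Set (M × M)} (hP : P.Finite) (h : PI L P)
    {x : M} (hx : ∀ y, (x, y) ∉ P) {F : Set M} (hF : F.Finite) :
    ∃ y, y ∉ F ∧ PI L (insert (x, y) P) := by
  obtain ⟨γ, hγ⟩ := h.extend hM.relational hM.homogeneous hP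
  have hy : γ x ∉ Prod.snd '' P := by
    rintro ⟨⟨x', y'⟩, hp, hpx⟩
    have h1 : γ x = γ x' := hpx.symm.trans (hγ _ hp).symm
    have h2 : x = x' := γ.injective h1
    exact hx y' (h2 ▸ hp)
  obtain ⟨δ, h1, h2⟩ := avoid hM (hP.image Prod.snd) hF hy
  refine ⟨δ (γ x), h2, (PI.graph (δ.comp γ)).mono ?_⟩
  rintro p (rfl | hp)
  · exact Language.Equiv.comp_apply _ _ _
  · change (δ.comp γ) p.1 = p.2
    rw [Language.Equiv.comp_apply, hγ p hp]
    exact h1 _ ⟨p, hp, rfl⟩

/-! ### Conditions -/

/-- The `n`-th partial map of `E` sends the injective tuple `a` to `b`. -/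
def Step {k : ℕ} (E : Set (ℕ × M × M)) (n : ℕ) (a b : Fin k → M) : Prop :=
  Function.Injective a ∧ ∀ i, (n, a i, b i) ∈ E

/-- Potentials. -/
def Pot {k : ℕ} (E : Set (ℕ × M × M)) (φ : (Fin k → M) → FreeGroup ℕ) : Prop :=
  ∀ n a b, Step E n a b → φ b = FreeGroup.of n * φ a

/-- The `n`-th partial map. -/
def gr (E : Set (ℕ × M × M)) (n : ℕ) : Set (M × M) := {p | (n, p) ∈ E}

variable (L) in
/-- The conditions. -/
structure Valid (k : ℕ) (E : Set (ℕ × M × M)) : Prop where
  fin : E.Finite
  pi : ∀ n, PI L (gr E n)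
  pot : ∃ φ : (Fin k → M) → FreeGroup ℕ, Pot E φ

theorem Valid.gr_finite {k : ℕ} {E : Set (ℕ × M × M)} (h : Valid L k E) (n : ℕ) :
    (gr E n).Finite :=
  h.fin.preimage (f := fun p => (n, p)) fun _ _ _ _ h => (Prod.mk.inj h).2

/-- Reversal of all the maps. -/
def rev (E : Set (ℕ × M × M)) : Set (ℕ × M × M) := {t | (t.1, t.2.2, t.2.1) ∈ E}

theorem rev_rev (E : Set (ℕ × M × M)) : rev (rev E) = E := rfl

theorem Valid.rev {k : ℕ} {E : Set (ℕ × M × M)} (h : Valid L k E) : Valid L k (rev E) where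
  fin := h.fin.preimage (f := fun t : ℕ × M × M => (t.1, t.2.2, t.2.1)) (by
    rintro ⟨n, x, y⟩ - ⟨n', x', y'⟩ - h
    simp only [Prod.mk.injEq] at h ⊢
    exact ⟨h.1, h.2.2, h.2.1⟩)
  pi := fun n => (h.pi n).swap
  pot := by
    obtain ⟨φ, hφ⟩ := h.pot
    refine ⟨fun a => FreeGroup.lift (fun n => (FreeGroup.of n)⁻¹) (φ a), ?_⟩
    rintro n a b ⟨ha, hab⟩
    have hb : Function.Injective b := by
      intro i j hij
      exact ha (((h.pi n).fn (b i, a i) (hab i) (b j, a j) (hab j)).1 hij)
    have h1 := hφ n b a ⟨hb, hab⟩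
    simp only [h1, map_mul, FreeGroup.lift_apply_of]
    group

theorem Valid.forward (hM : FraisseStructure L M) {k : ℕ} {E : Set (ℕ × M × M)}
    (h : Valid L k E) (n : ℕ) (x : M) : ∃ E', E ⊆ E' ∧ Valid L k E' ∧ ∃ y, (n, x, y) ∈ E' := by
  classical
  by_cases hx : ∃ y, (n, x, y) ∈ E
  · exact ⟨E, subset_rfl, h, hx⟩
  push Not at hx
  obtain ⟨y, hyF, hy⟩ := (h.pi n).insert_fresh hM (h.gr_finite n) (x := x) hx
    (F := insert x ((fun t => t.2.1) '' E ∪ (fun t => t.2.2) '' E))
    (((h.fin.image _).union (h.fin.image _)).insert x)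
  have hyx : y ≠ x := fun h => hyF (Or.inl h)
  have hy1 : ∀ m z, (m, y, z) ∉ E := fun m z hm => hyF (Or.inr (Or.inl ⟨_, hm, rfl⟩))
  have hy2 : ∀ m z, (m, z, y) ∉ E := fun m z hm => hyF (Or.inr (Or.inr ⟨_, hm, rfl⟩))
  have hpi : ∀ m, PI L (gr (insert (n, x, y) E) m) := by
    intro m
    by_cases hm : m = n
    · subst hm
      refine hy.mono ?_
      rintro p (hp | hp)
      · exact Or.inl (Prod.mk.inj hp).2
      · exact Or.inr hp
    · refine (h.pi m).mono ?_
      rintro p (hp | hp)
      · exact absurd (Prod.mk.inj hp).1 hm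
      · exact hp
  refine ⟨insert (n, x, y) E, Set.subset_insert _ _, ⟨h.fin.insert _, hpi, ?_⟩, y, Or.inl rfl⟩
  obtain ⟨φ, hφ⟩ := h.pot
  let φ' : (Fin k → M) → FreeGroup ℕ := fun c =>
    if hc : (∃ i, c i = y) ∧ ∃ a, Step (insert (n, x, y) E) n a c then
      FreeGroup.of n * φ hc.2.choose else φ c
  refine ⟨φ', ?_⟩
  intro m a b hab
  have ha : ¬ ∃ i, a i = y := by
    rintro ⟨i, hi⟩
    have h1 := hab.2 i
    rw [hi] at h1
    rcases h1 with h1 | h1
    · exact hyx (Prod.mk.inj (Prod.mk.inj h1).2).1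
    · exact hy1 _ _ h1
  have hφa : φ' a = φ a := by
    simp only [φ']
    rw [dif_neg fun hc => ha hc.1]
  rw [hφa]
  by_cases hb : ∃ i, b i = y
  · have hmn : m = n := by
      obtain ⟨i, hi⟩ := hb
      have h1 := hab.2 i
      rw [hi] at h1
      rcases h1 with h1 | h1
      · exact (Prod.mk.inj h1).1
      · exact absurd h1 (hy2 _ _)
    subst hmn
    have hc : (∃ i, b i = y) ∧ ∃ a, Step (insert (m, x, y) E) m a b := ⟨hb, a, hab⟩
    simp only [φ']
    rw [dif_pos hc]
    have h1 : hc.2.choose = a := by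
      funext i
      exact ((hpi m).fn (hc.2.choose i, b i) (hc.2.choose_spec.2 i) (a i, b i) (hab.2 i)).2 rfl
    rw [h1]
  · simp only [φ']
    rw [dif_neg fun hc => hb hc.1]
    refine hφ m a b ⟨hab.1, fun i => ?_⟩
    rcases hab.2 i with h1 | h1
    · exact absurd ⟨i, (Prod.mk.inj (Prod.mk.inj h1).2).2⟩ hb
    · exact h1

theorem Valid.backward (hM : FraisseStructure L M) {k : ℕ} {E : Set (ℕ × M × M)}
    (h : Valid L k E) (n : ℕ) (x : M) : ∃ E', E ⊆ E' ∧ Valid L k E' ∧ ∃ y, (n, y, x) ∈ E' := by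
  obtain ⟨E', h1, h2, y, h3⟩ := h.rev.forward hM n x
  exact ⟨RigidSubsets.rev E', fun t ht => h1 (show (t.1, t.2.2, t.2.1) ∈ RigidSubsets.rev E from ht),
    h2.rev, y, h3⟩

/-! ### Connecting tuples -/

/-- Connectedness of tuples. -/
def Conn {k : ℕ} (E : Set (ℕ × M × M)) : (Fin k → M) → (Fin k → M) → Prop :=
  Relation.EqvGen fun a b => ∃ n, Step E n a b

theorem SameType.symm {k : ℕ} {a b : Fin k → M} (h : SameType L a b) : SameType L b a :=
  fun n r v => (h n r v).symm

theorem SameType.trans {k : ℕ} {a b c : Fin k → M} (h : SameType L a b) (h' : SameType L b c) :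
    SameType L a c :=
  fun n r v => (h n r v).trans (h' n r v)

theorem SameType.comp {k : ℕ} {a b : Fin k → M} (h : SameType L a b) (π : Fin k → Fin k) :
    SameType L (a ∘ π) (b ∘ π) :=
  fun n r v => h n r (π ∘ v)

theorem Conn.sameType {k : ℕ} {E : Set (ℕ × M × M)} (hE : ∀ n, PI L (gr E n)) {a b : Fin k → M}
    (h : Conn E a b) : SameType L a b := by
  induction h with
  | rel a b h =>
    obtain ⟨n, -, h⟩ := h
    intro m r v
    exact (hE n).rel m r (fun i => (a (v i), b (v i))) fun i => h (v i)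
  | refl a => exact fun _ _ _ => Iff.rfl
  | symm a b _ ih => exact ih.symm
  | trans a b c _ _ ih1 ih2 => exact ih1.trans ih2

theorem Conn.comp {k : ℕ} {E : Set (ℕ × M × M)} {a b : Fin k → M} (h : Conn E a b)
    (π : Equiv.Perm (Fin k)) : Conn E (a ∘ π) (b ∘ π) := by
  induction h with
  | rel a b h =>
    obtain ⟨n, h1, h2⟩ := h
    exact Relation.EqvGen.rel _ _ ⟨n, h1.comp π.injective, fun i => h2 (π i)⟩
  | refl a => exact Relation.EqvGen.refl _
  | symm a b _ ih => exact Relation.EqvGen.symm _ _ ih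
  | trans a b c _ _ ih1 ih2 => exact Relation.EqvGen.trans _ _ _ ih1 ih2

theorem rigid (hL : L.IsRelational) {k : ℕ} (hr : HasRigidSubsets L M k) {b : Fin k → M}
    (hb : Function.Injective b) {π σ : Equiv.Perm (Fin k)} (h : SameType L (b ∘ π) (b ∘ σ)) :
    π = σ := by
  let S := sub hL (Set.range b)
  let f : Fin k ≃ S := Equiv.ofInjective b hb
  have hf : ∀ i, (f i : M) = b i := fun i => rfl
  let e : S ≃[L] S :=
    { toEquiv := f.symm.trans ((π.symm.trans σ).trans f)
      map_fun' := fun {n} g => ((hL n).false g).elim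
      map_rel' := by
        intro n r x
        change RelMap r (fun i => ((f (σ (π.symm (f.symm (x i)))) : S) : M)) ↔
          RelMap r (fun i => (x i : M))
        have h1 := h n r (fun i => π.symm (f.symm (x i)))
        have h2 : (fun i => (x i : M)) = fun i => (b ∘ π) (π.symm (f.symm (x i))) := by
          funext i
          rw [Function.comp, Equiv.apply_symm_apply, ← hf, Equiv.apply_symm_apply]
        rw [h2]
        exact h1.symm }
  have hfin : Finite S := Set.finite_range b
  have hcard : Nat.card S = k := by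
    rw [← Nat.card_congr f, Nat.card_fin]
  ext i
  have h1 := hr S hfin hcard e (f (π i))
  have h2 : f (σ (π.symm (f.symm (f (π i))))) = f (π i) := h1
  rw [Equiv.symm_apply_apply, Equiv.symm_apply_apply] at h2
  rw [f.injective h2]

theorem Valid.connect (hL : L.IsRelational) {k : ℕ} (hr : HasRigidSubsets L M k)
    {E : Set (ℕ × M × M)} (h : Valid L k E) {a b : Fin k → M} (ha : Function.Injective a)
    (hb : Function.Injective b) (hab : SameType L a b) :
    ∃ E', E ⊆ E' ∧ Valid L k E' ∧ Conn E' a b := by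
  classical
  by_cases hc : Conn E a b
  · exact ⟨E, subset_rfl, h, hc⟩
  obtain ⟨n, hn⟩ := (h.fin.image Prod.fst).exists_notMem
  have hn' : ∀ p, (n, p) ∉ E := fun p hp => hn ⟨_, hp, rfl⟩
  let N : Set (ℕ × M × M) := Set.range fun i => (n, a i, b i)
  have hconn : Conn (E ∪ N) a b :=
    Relation.EqvGen.rel _ _ ⟨n, ha, fun i => Or.inr ⟨i, rfl⟩⟩
  refine ⟨E ∪ N, Set.subset_union_left, ⟨h.fin.union (Set.finite_range _), ?_, ?_⟩, hconn⟩
  · intro m
    by_cases hm : m = n
    · subst hm
      have h1 : ∀ p ∈ gr (E ∪ N) m, ∃ i, p = (a i, b i) := by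
        rintro p (hp | ⟨i, hi⟩)
        · exact absurd hp (hn' p)
        · exact ⟨i, (Prod.mk.inj hi).2.symm⟩
      constructor
      · intro p hp q hq
        obtain ⟨i, rfl⟩ := h1 p hp
        obtain ⟨j, rfl⟩ := h1 q hq
        change a i = a j ↔ b i = b j
        rw [ha.eq_iff, hb.eq_iff]
      · intro l r z hz
        choose v hv using fun i => h1 _ (hz i)
        simp only [hv]
        exact hab l r v
    · refine (h.pi m).mono ?_
      rintro p (hp | ⟨i, hi⟩)
      · exact hp
      · exact absurd (Prod.mk.inj hi).1.symm hm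
  · obtain ⟨φ, hφ⟩ := h.pot
    have huniq : ∀ (c : Fin k → M) (π σ : Equiv.Perm (Fin k)), Conn E (b ∘ π) c →
        Conn E (b ∘ σ) c → π = σ := fun c π σ h1 h2 =>
      rigid hL hr hb ((Conn.sameType h.pi h1).trans (Conn.sameType h.pi h2).symm)
    have hnot : ∀ π σ : Equiv.Perm (Fin k), ¬ Conn E (b ∘ σ) (a ∘ π) := by
      intro π σ h1
      have h2 : SameType L (b ∘ σ) (b ∘ π) := (Conn.sameType h.pi h1).trans (hab.comp π)
      have h3 := rigid hL hr hb h2
      subst h3
      have h4 := h1.comp σ⁻¹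
      have h5 : ∀ c : Fin k → M, (c ∘ σ) ∘ (σ⁻¹ : Equiv.Perm (Fin k)) = c := by
        intro c
        funext i
        simp
      rw [h5, h5] at h4
      exact hc (Relation.EqvGen.symm _ _ h4)
    let φ' : (Fin k → M) → FreeGroup ℕ := fun c =>
      if hc : ∃ π : Equiv.Perm (Fin k), Conn E (b ∘ π) c then
        φ c * ((φ (b ∘ hc.choose))⁻¹ * FreeGroup.of n * φ (a ∘ hc.choose)) else φ c
    have hpos : ∀ (c : Fin k → M) (π : Equiv.Perm (Fin k)), Conn E (b ∘ π) c →
        φ' c = φ c * ((φ (b ∘ π))⁻¹ * FreeGroup.of n * φ (a ∘ π)) := by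
      intro c π hcπ
      have hc : ∃ π : Equiv.Perm (Fin k), Conn E (b ∘ π) c := ⟨π, hcπ⟩
      have h1 : hc.choose = π := huniq c _ _ hc.choose_spec hcπ
      simp only [φ']
      rw [dif_pos hc, h1]
    have hneg : ∀ c : Fin k → M, (¬ ∃ π : Equiv.Perm (Fin k), Conn E (b ∘ π) c) → φ' c = φ c := by
      intro c hc
      simp only [φ']
      rw [dif_neg hc]
    refine ⟨φ', ?_⟩
    intro m c d hcd
    by_cases hm : m = n
    · subst hm
      have h1 : ∀ i, ∃ j, a j = c i ∧ b j = d i := by
        intro i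
        rcases hcd.2 i with h2 | ⟨j, hj⟩
        · exact absurd h2 (hn' _)
        · have h3 := Prod.mk.inj (Prod.mk.inj hj).2
          exact ⟨j, h3.1, h3.2⟩
      choose v hv1 hv2 using h1
      have hvinj : Function.Injective v := by
        intro i j hij
        apply hcd.1
        rw [← hv1, ← hv1, hij]
      obtain ⟨π, hπ⟩ : ∃ π : Equiv.Perm (Fin k), ⇑π = v :=
        ⟨Equiv.ofBijective v (Finite.injective_iff_bijective.1 hvinj), rfl⟩
      have hcπ : c = a ∘ π := funext fun i => by rw [Function.comp, hπ, hv1]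
      have hdπ : d = b ∘ π := funext fun i => by rw [Function.comp, hπ, hv2]
      rw [hcπ, hdπ, hpos _ π (Relation.EqvGen.refl _), hneg _ fun ⟨σ, hσ⟩ => hnot π σ hσ]
      group
    · have hst : Step E m c d := by
        refine ⟨hcd.1, fun i => ?_⟩
        rcases hcd.2 i with h2 | ⟨j, hj⟩
        · exact h2
        · exact absurd (Prod.mk.inj hj).1.symm hm
      have hcon : Conn E c d := Relation.EqvGen.rel _ _ ⟨m, hst⟩
      have h1 := hφ m c d hst
      by_cases hcc : ∃ π : Equiv.Perm (Fin k), Conn E (b ∘ π) c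
      · obtain ⟨π, hπ⟩ := hcc
        rw [hpos c π hπ, hpos d π (Relation.EqvGen.trans _ _ _ hπ hcon), h1, mul_assoc]
      · have hdd : ¬ ∃ π : Equiv.Perm (Fin k), Conn E (b ∘ π) d := by
          rintro ⟨π, hπ⟩
          exact hcc ⟨π, Relation.EqvGen.trans _ _ _ hπ (Relation.EqvGen.symm _ _ hcon)⟩
        rw [hneg c hcc, hneg d hdd, h1]

/-! ### The generic sequence -/

theorem Valid.empty (k : ℕ) (hk : 1 ≤ k) : Valid L k (∅ : Set (ℕ × M × M)) where
  fin := Set.finite_empty
  pi := fun n => ⟨fun p hp => absurd hp (Set.notMem_empty _), fun m r z hz => by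
    have h1 : (fun i => (z i).1) = fun i => (z i).2 := funext fun i => absurd (hz i) (Set.notMem_empty _)
    rw [h1]⟩
  pot := ⟨fun _ => 1, fun n a b h => absurd (h.2 ⟨0, hk⟩) (Set.notMem_empty _)⟩

/-- The generic sequence of conditions. -/
theorem exists_sequence (hM : FraisseStructure L M) {k : ℕ} (hk : 1 ≤ k)
    (hr : HasRigidSubsets L M k) :
    ∃ s : ℕ → Set (ℕ × M × M), Monotone s ∧ (∀ N, Valid L k (s N)) ∧
      (∀ n x, ∃ N y, (n, x, y) ∈ s N) ∧ (∀ n x, ∃ N y, (n, y, x) ∈ s N) ∧
      ∀ a b : Fin k → M, Function.Injective a → Function.Injective b → SameType L a b →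
        ∃ N, Conn (s N) a b := by
  have := hM.countable
  let P : Type w := {E : Set (ℕ × M × M) // Valid L k E}
  let T : Type w := {ab : (Fin k → M) × (Fin k → M) // Function.Injective ab.1 ∧
    Function.Injective ab.2 ∧ SameType L ab.1 ab.2}
  let D1 : ℕ × M → Order.Cofinal P := fun nx =>
    ⟨{E | ∃ y, (nx.1, nx.2, y) ∈ E.1}, fun E => by
      obtain ⟨E', h1, h2, h3⟩ := E.2.forward hM nx.1 nx.2
      exact ⟨⟨E', h2⟩, h3, h1⟩⟩
  let D2 : ℕ × M → Order.Cofinal P := fun nx =>
    ⟨{E | ∃ y, (nx.1, y, nx.2) ∈ E.1}, fun E => by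
      obtain ⟨E', h1, h2, h3⟩ := E.2.backward hM nx.1 nx.2
      exact ⟨⟨E', h2⟩, h3, h1⟩⟩
  let D3 : T → Order.Cofinal P := fun t =>
    ⟨{E | Conn E.1 t.1.1 t.1.2}, fun E => by
      obtain ⟨E', h1, h2, h3⟩ := E.2.connect hM.relational hr t.2.1 t.2.2.1 t.2.2.2
      exact ⟨⟨E', h2⟩, h3, h1⟩⟩
  let ι : Type w := (ℕ × M) ⊕ (ℕ × M) ⊕ T
  let 𝒟 : ι → Order.Cofinal P := Sum.elim D1 (Sum.elim D2 D3)
  have : Encodable ι := Encodable.ofCountable ι
  let s : ℕ → P := Order.sequenceOfCofinals (⟨∅, Valid.empty k hk⟩ : P) 𝒟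
  have hs : ∀ i : ι, s (Encodable.encode i + 1) ∈ 𝒟 i :=
    fun i => Order.sequenceOfCofinals.encode_mem (⟨∅, Valid.empty k hk⟩ : P) 𝒟 i
  refine ⟨fun N => (s N).1, fun i j hij => ?_, fun N => (s N).2, ?_, ?_, ?_⟩
  · exact Order.sequenceOfCofinals.monotone (⟨∅, Valid.empty k hk⟩ : P) 𝒟 hij
  · intro n x
    exact ⟨_, hs (Sum.inl (n, x))⟩
  · intro n x
    exact ⟨_, hs (Sum.inr (Sum.inl (n, x)))⟩
  · intro a b ha hb hab
    exact ⟨_, hs (Sum.inr (Sum.inr ⟨(a, b), ha, hb, hab⟩))⟩

/-- **Rigid `k`-subsets give structurally sharply `k`-transitive actions.** -/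
theorem main (hM : FraisseStructure L M) {k : ℕ} (hk : 1 ≤ k) (hr : HasRigidSubsets L M k) :
    ∃ _ : MulAction (FreeGroup ℕ) M, ActsByAutomorphisms L (FreeGroup ℕ) M ∧
      SharplyTransitive L (FreeGroup ℕ) M k := by
  obtain ⟨s, hmono, hval, htot, hsur, hcon⟩ := exists_sequence hM hk hr
  have hev : ∀ (t : ℕ × M × M) (N : ℕ), t ∈ s N → ∀ᶠ N' in atTop, t ∈ s N' := by
    intro t N ht
    filter_upwards [eventually_ge_atTop N] with N' hN' using hmono hN' ht
  choose N1 f hf using htot
  choose N2 f' hf' using hsur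
  have hcommon : ∀ (t t' : ℕ × M × M) (N N' : ℕ), t ∈ s N → t' ∈ s N' →
      t ∈ s (max N N') ∧ t' ∈ s (max N N') := fun t t' N N' h h' =>
    ⟨hmono (le_max_left _ _) h, hmono (le_max_right _ _) h'⟩
  have hfun : ∀ n x y N, (n, x, y) ∈ s N → f n x = y := by
    intro n x y N h
    obtain ⟨h1, h2⟩ := hcommon _ _ _ _ h (hf n x)
    exact ((((hval _).pi n).fn (x, f n x) h2 (x, y) h1).1 rfl)
  have hfun' : ∀ n x y N, (n, x, y) ∈ s N → f' n y = x := by
    intro n x y N h
    obtain ⟨h1, h2⟩ := hcommon _ _ _ _ h (hf' n y)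
    exact ((((hval _).pi n).fn (f' n y, y) h2 (x, y) h1).2 rfl)
  let g : ℕ → Equiv.Perm M := fun n =>
    { toFun := f n
      invFun := f' n
      left_inv := fun x => hfun' n x (f n x) _ (hf n x)
      right_inv := fun y => hfun n (f' n y) y _ (hf' n y) }
  have hg : ∀ n x, g n x = f n x := fun n x => rfl
  have hgev : ∀ {m : ℕ} (n : ℕ) (x : Fin m → M), ∀ᶠ N in atTop, ∀ i, (n, x i, g n (x i)) ∈ s N :=
    fun n x => eventually_all.2 fun i => hev _ _ (hf n (x i))
  let act : MulAction (FreeGroup ℕ) M := MulAction.compHom M (FreeGroup.lift g)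
  have hact : ∀ n x, FreeGroup.of n • x = g n x := by
    intro n x
    change FreeGroup.lift g (FreeGroup.of n) x = g n x
    rw [FreeGroup.lift_apply_of]
  refine ⟨act, ?_, ?_⟩
  · -- automorphisms
    have hgen : ∀ (n m : ℕ) (r : L.Relations m) (x : Fin m → M),
        RelMap r (fun i => FreeGroup.of n • x i) ↔ RelMap r x := by
      intro n m r x
      obtain ⟨N, hN⟩ := (hgev n x).exists
      simp only [hact]
      exact (((hval N).pi n).rel m r (fun i => (x i, g n (x i))) hN).symm
    intro w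
    induction w using FreeGroup.induction_on with
    | C1 => intro m r x; simp only [one_smul]
    | of n => exact hgen n
    | inv_of n _ =>
      intro m r x
      have h1 := hgen n m r (fun i => (FreeGroup.of n)⁻¹ • x i)
      simp only [smul_inv_smul] at h1
      exact h1.symm
    | mul w w' h h' =>
      intro m r x
      simp only [mul_smul]
      rw [h m r fun i => w' • x i, h' m r x]
  · -- potentials
    have hpot : ∀ (w : FreeGroup ℕ) (a : Fin k → M), Function.Injective a →
        ∀ᶠ N in atTop, ∀ φ : (Fin k → M) → FreeGroup ℕ, Pot (s N) φ →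
          φ (fun i => w • a i) = w * φ a := by
      intro w
      induction w using FreeGroup.induction_on with
      | C1 =>
        intro a _
        filter_upwards with N φ _
        simp only [one_smul, one_mul]
      | of n =>
        intro a ha
        filter_upwards [hgev n a] with N hN φ hφ
        simp only [hact]
        exact hφ n a _ ⟨ha, hN⟩
      | inv_of n _ =>
        intro a ha
        have hinj : Function.Injective fun i => (FreeGroup.of n)⁻¹ • a i :=
          (MulAction.injective _).comp ha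
        filter_upwards [hgev n fun i => (FreeGroup.of n)⁻¹ • a i] with N hN φ hφ
        have h1 : (fun i => g n ((FreeGroup.of n)⁻¹ • a i)) = a := by
          funext i
          rw [← hact, smul_inv_smul]
        have h2 := hφ n _ _ ⟨hinj, hN⟩
        rw [h1] at h2
        rw [h2, inv_mul_cancel_left]
      | mul w w' h h' =>
        intro a ha
        have hinj : Function.Injective fun i => w' • a i := (MulAction.injective _).comp ha
        filter_upwards [h _ hinj, h' a ha] with N h1 h2 φ hφ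
        simp only [mul_smul]
        rw [h1 φ hφ, h2 φ hφ, mul_assoc]
    have hreach : ∀ (a b : Fin k → M) (N : ℕ), Conn (s N) a b →
        ∃ w : FreeGroup ℕ, ∀ i, w • a i = b i := by
      intro a b N h
      induction h with
      | rel a b h =>
        obtain ⟨n, _, h⟩ := h
        exact ⟨FreeGroup.of n, fun i => by rw [hact, hg]; exact hfun _ _ _ _ (h i)⟩
      | refl a => exact ⟨1, fun i => one_smul _ _⟩
      | symm a b _ ih =>
        obtain ⟨w, hw⟩ := ih
        exact ⟨w⁻¹, fun i => by rw [← hw i, inv_smul_smul]⟩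
      | trans a b c _ _ ih1 ih2 =>
        obtain ⟨w, hw⟩ := ih1
        obtain ⟨w', hw'⟩ := ih2
        exact ⟨w' * w, fun i => by rw [mul_smul, hw, hw']⟩
    intro a b ha hb hab
    obtain ⟨N, hN⟩ := hcon a b ha hb hab
    obtain ⟨w, hw⟩ := hreach a b N hN
    refine ⟨w, hw, fun w' hw' => ?_⟩
    obtain ⟨N', h1, h2⟩ := ((hpot w a ha).and (hpot w' a ha)).exists
    obtain ⟨φ, hφ⟩ := (hval N').pot
    have h3 := h1 φ hφ
    have h4 := h2 φ hφ
    have h5 : (fun i => w • a i) = fun i => w' • a i := funext fun i => by rw [hw, hw']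
    rw [h5, h4] at h3
    exact mul_right_cancel h3

end Main

/-- **Every Fraïssé structure with rigid `k`-subsets, `k ≥ 1`, admits a structurally sharply
`k`-transitive action**, namely one of the free group on countably many generators. -/
theorem result : ∀ (L : FirstOrder.Language.{u, v}) (M : Type w) [L.Structure M] (k : ℕ), 1 ≤ k →
    FraisseStructure L M → HasRigidSubsets L M k →
      ∃ _ : MulAction (FreeGroup ℕ) M, ActsByAutomorphisms L (FreeGroup ℕ) M ∧
        SharplyTransitive L (FreeGroup ℕ) M k :=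
  fun _ _ _ _ hk hM hr => main hM hk hr

end Pool.Agent.Results.MP_301b8f_al.RigidSubsets
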